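import Pool.Agent.helper83.LS.Spec

set_option autoImplicit false

namespace LSH

theorem U3b_tf (h : true = false) : False := by cases h

theorem U3b_ft (h : false = true) : False := by cases h

theorem U3b_gen (A B : Set Pt) (h : Gen A) (hs : B ⊆ A) : Gen B :=
  fun a ha b hb hab => h a (hs ha) b (hs hb) hab

theorem U3b_lt (hOB : OB_stmt) (e : Edge) (w : Pt) (c : ℝ) (hw : e.on w) (ha : c < e.a.1)
    (hb : c < e.b.1) : c < w.1 := by
  have h := (hOB.1 e w hw).1
  rw [Set.mem_uIcc] at h
  rcases h with h | h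
  · linarith [h.1]
  · linarith [h.1]

theorem U3b_lt2 (hOB : OB_stmt) (e : Edge) (w : Pt) (c : ℝ) (hw : e.on w) (ha : e.a.2 < c)
    (hb : e.b.2 < c) : w.2 < c := by
  have h := (hOB.1 e w hw).2
  rw [Set.mem_uIcc] at h
  rcases h with h | h
  · linarith [h.2]
  · linarith [h.2]

/-- the points of the first edge -/
theorem U3b_first (p z w : Pt) (hpz : p.1 < z.1) (hpz2 : p.2 < z.2)
    (hw : (⟨p, z, true⟩ : Edge).on w) : w.1 ≤ z.1 ∧ w.2 ≤ z.2 := by
  rcases hw with ⟨_, h | h⟩ | ⟨h, _⟩
  · obtain ⟨h1, h2⟩ := h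
    rw [Set.uIcc_of_le hpz.le] at h2
    exact ⟨h2.2, h1.le.trans hpz2.le⟩
  · obtain ⟨h1, h2⟩ := h
    rw [Set.uIcc_of_le hpz2.le] at h2
    exact ⟨h1.le, h2.2⟩
  · exact (U3b_tf h).elim

theorem U3b_mem (hEE : EE_stmt) (d : PT) (R : Finset Pt) (hd : d.pts = R.val) (e : Edge)
    (he : e ∈ d.edges) : e.a ∈ R ∧ e.b ∈ R := by
  have h := hEE.1 d e he
  rw [hd] at h
  exact h

theorem U3b_root (hEE : EE_stmt) (d : PT) (R : Finset Pt) (hd : d.pts = R.val) : d.root ∈ R := by
  have h := hEE.2.1 d
  rw [hd] at h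
  exact h

theorem U3b (hOB : OB_stmt) (hEE : EE_stmt) (hAU : AU_stmt) (hFA : FA_stmt) (hRL : RL1_stmt) :
    U3b_stmt := by
  intro t hL S p z T hcard hgen hpS hz hzl hpz hT hTt hcase
  have hL1 : LL (.un t) := hRL.2 t hL
  have hL2 : LL (.un (.un t)) := hRL.2 _ hL1
  have hSmem : ∀ s ∈ S, s ∈ insert p (S : Set Pt) := fun s hs => Or.inr hs
  have hzlt : ∀ s ∈ S, s ≠ z → z.1 < s.1 := by
    intro s hs hsz
    exact lt_of_le_of_ne (hzl s hs) (hgen z (hSmem z hz) s (hSmem s hs) (Ne.symm hsz)).1
  have hTlt : ∀ s ∈ S, s ≠ T → s.2 < T.2 := by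
    intro s hs hsT
    exact lt_of_le_of_ne (hTt s hs) (hgen s (hSmem s hs) T (hSmem T hT) hsT).2
  have hpz1 := hpS z hz
  by_cases hTz : T = z
  · subst hTz
    have hR : (S.erase T).card = (BT.un (BT.un t)).size := by
      rw [Finset.card_erase_of_mem hT, hcard]
      rfl
    have hgR : Gen (insert T ((S.erase T : Finset Pt) : Set Pt)) := by
      refine U3b_gen _ _ hgen ?_
      intro s hs
      rcases hs with rfl | hs
      · exact hSmem _ hT
      · exact hSmem _ (Finset.mem_of_mem_erase hs)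
    obtain ⟨d, hd, -⟩ := (hFA _ hL2 (S.erase T) T hR hgR).2.2.2 (fun s hs =>
      hTlt s (Finset.mem_of_mem_erase hs) (Finset.ne_of_mem_erase hs))
    have hroot := U3b_root hEE d _ hd.2.1
    have hres := hAU p T true true _ _ d hd (Finset.notMem_erase T S) (by
      intro e he w hw1 hw2
      obtain ⟨h1, h2⟩ := U3b_first p T w hpz1 hpz hw1
      rcases List.mem_cons.1 he with rfl | he
      · have hr := hzlt d.root (Finset.mem_of_mem_erase hroot) (Finset.ne_of_mem_erase hroot)
        have hwz : w = T := by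
          rcases hw2 with ⟨_, h | h⟩ | ⟨h, _⟩
          · obtain ⟨h3, h4⟩ := h
            dsimp only at h3 h4
            rw [Set.uIcc_of_le hr.le] at h4
            exact Prod.ext (le_antisymm h1 h4.1) h3
          · obtain ⟨h3, h4⟩ := h
            dsimp only at h3 h4
            exfalso
            linarith
          · exact (U3b_tf h).elim
        exact ⟨Or.inr hwz, Or.inl hwz⟩
      · exfalso
        obtain ⟨h3, h4⟩ := U3b_mem hEE d _ hd.2.1 e he
        have h5 := U3b_lt hOB e w T.1 hw2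
          (hzlt _ (Finset.mem_of_mem_erase h3) (Finset.ne_of_mem_erase h3))
          (hzlt _ (Finset.mem_of_mem_erase h4) (Finset.ne_of_mem_erase h4))
        linarith)
    rw [Finset.insert_erase hT] at hres
    exact ⟨_, true, hres, Or.inl rfl⟩
  · have hTr : ∀ s ∈ S, s.1 ≤ T.1 := by
      rcases hcase with h | h
      · exact absurd h hTz
      · exact h
    have hTrlt : ∀ s ∈ S, s ≠ T → s.1 < T.1 := by
      intro s hs hsT
      exact lt_of_le_of_ne (hTr s hs) (hgen s (hSmem s hs) T (hSmem T hT) hsT).1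
    set R := (S.erase z).erase T with hRdef
    have hTm : T ∈ S.erase z := Finset.mem_erase.2 ⟨hTz, hT⟩
    have hRS : ∀ s ∈ R, s ∈ S ∧ s ≠ z ∧ s ≠ T := by
      intro s hs
      have h1 := Finset.mem_erase.1 hs
      have h2 := Finset.mem_erase.1 h1.2
      exact ⟨h2.2, h2.1, h1.1⟩
    have hR : R.card = (BT.un t).size := by
      rw [hRdef, Finset.card_erase_of_mem hTm, Finset.card_erase_of_mem hz, hcard]
      rfl
    have hgR : Gen (insert T (R : Set Pt)) := by
      refine U3b_gen _ _ hgen ?_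
      intro s hs
      rcases hs with rfl | hs
      · exact hSmem _ hT
      · exact hSmem _ (hRS s hs).1
    obtain ⟨d, hd, -⟩ := (hFA _ hL1 R T hR hgR).2.1 (fun s hs =>
      hTrlt s (hRS s hs).1 (hRS s hs).2.2)
    have hroot := hRS _ (U3b_root hEE d _ hd.2.1)
    have hzT1 : z.1 < T.1 := hzlt T hT hTz
    have hzT2 : z.2 < T.2 := hTlt z hz (Ne.symm hTz)
    have hr2 : d.root.2 < T.2 := hTlt _ hroot.1 hroot.2.2
    have hr1 : d.root.1 < T.1 := hTrlt _ hroot.1 hroot.2.2
    have hzr1 : z.1 < d.root.1 := hzlt _ hroot.1 hroot.2.1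
    have hres1 := hAU z T false false _ _ d hd (Finset.notMem_erase T _) (by
      intro e he w hw1 hw2
      have hcase1 : w.1 = z.1 ∨ w.2 = T.2 := by
        rcases hw1 with ⟨h, _⟩ | ⟨_, h | h⟩
        · exact (U3b_ft h).elim
        · exact Or.inl h.1
        · exact Or.inr h.1
      rcases List.mem_cons.1 he with rfl | he
      · have hw1' := U3b_lt hOB _ w z.1 hw2 hzT1 hzr1
        rcases hcase1 with h | h
        · exfalso
          linarith
        · have hwT : w = T := by
            rcases hw2 with ⟨h', _⟩ | ⟨_, h' | h'⟩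
            · exact (U3b_ft h').elim
            · exact Prod.ext h'.1 h
            · exfalso
              have h3 : w.2 = d.root.2 := h'.1
              linarith
          exact ⟨Or.inr hwT, Or.inl hwT⟩
      · exfalso
        obtain ⟨h3, h4⟩ := U3b_mem hEE d _ hd.2.1 e he
        have h3' := hRS _ h3
        have h4' := hRS _ h4
        have h5 := U3b_lt hOB e w z.1 hw2 (hzlt _ h3'.1 h3'.2.1) (hzlt _ h4'.1 h4'.2.1)
        have h6 := U3b_lt2 hOB e w T.2 hw2 (hTlt _ h3'.1 h3'.2.2) (hTlt _ h4'.1 h4'.2.2)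
        rcases hcase1 with h | h <;> linarith)
    have hins : insert T R = S.erase z := Finset.insert_erase hTm
    rw [hins] at hres1
    have hres := hAU p z true false _ _ _ hres1 (Finset.notMem_erase z S) (by
      intro e he w hw1 hw2
      obtain ⟨h1, h2⟩ := U3b_first p z w hpz1 hpz hw1
      rcases List.mem_cons.1 he with rfl | he
      · have hwz : w = z := by
          rcases hw2 with ⟨h', _⟩ | ⟨_, h' | h'⟩
          · exact (U3b_ft h').elim
          · obtain ⟨h3, h4⟩ := h'
            have h5 : w.2 ∈ Set.uIcc z.2 T.2 := h4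
            rw [Set.uIcc_of_le hzT2.le] at h5
            exact Prod.ext h3 (le_antisymm h2 h5.1)
          · exfalso
            have h3 : w.2 = T.2 := h'.1
            linarith
        exact ⟨Or.inr hwz, Or.inl hwz⟩
      · exfalso
        obtain ⟨h3, h4⟩ := U3b_mem hEE _ _ hres1.2.1 e he
        have h5 := U3b_lt hOB e w z.1 hw2
          (hzlt _ (Finset.mem_of_mem_erase h3) (Finset.ne_of_mem_erase h3))
          (hzlt _ (Finset.mem_of_mem_erase h4) (Finset.ne_of_mem_erase h4))
        linarith)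
    rw [Finset.insert_erase hz] at hres
    exact ⟨_, true, hres, Or.inl rfl⟩

end LSH
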